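import Pool.Agent.Zk91.SQ.Defs8

/-!
# Reproduced continuous functions are smooth solutions of `Δf + f = 0`
-/

set_option autoImplicit false
set_option linter.all false

open MeasureTheory Filter Topology
open scoped ContDiff

namespace Pool.Agent.Zk20.SQ

open Pool.Agent.Zk91.SQ
open Pool.Agent.W745.RW (lap dx dy)

theorem der (v : ℂ) {K f : ℂ → ℝ} (hK : ContDiff ℝ ∞ K) (hs : HasCompactSupport K)
    (hf : Continuous f) (w : ℂ) :
    fderiv ℝ (fun w => ∫ y : ℂ, K y * f (w - y)) w v = ∫ y : ℂ, fderiv ℝ K y v * f (w - y) := by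
  have hK1 : ContDiff ℝ 1 K := hK.of_le (by exact_mod_cast le_top)
  have h := hs.hasFDerivAt_convolution_left (μ := (volume : Measure ℂ))
    (ContinuousLinearMap.mul ℝ ℝ) hK1 (hf.locallyIntegrable (μ := volume)) w
  have h1 : (fun w => ∫ y : ℂ, K y * f (w - y)) =
      MeasureTheory.convolution K f (ContinuousLinearMap.mul ℝ ℝ) volume := by
    funext w
    rfl
  rw [h1, h.fderiv]
  have h2 : Integrable (fun t => ((ContinuousLinearMap.mul ℝ ℝ).precompL ℂ) (fderiv ℝ K t)
      (f (w - t))) volume :=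
    (hs.fderiv (𝕜 := ℝ)).convolutionExists_left _ (hK1.continuous_fderiv one_ne_zero)
      (hf.locallyIntegrable (μ := volume)) w
  change (∫ t, ((ContinuousLinearMap.mul ℝ ℝ).precompL ℂ) (fderiv ℝ K t) (f (w - t))) v = _
  rw [ContinuousLinearMap.integral_apply h2]
  rfl

theorem smooth_der (v : ℂ) {K : ℂ → ℝ} (hK : ContDiff ℝ ∞ K) :
    ContDiff ℝ ∞ (fun y => fderiv ℝ K y v) :=
  (hK.fderiv_right (m := ∞) (by exact_mod_cast le_top)).clm_apply contDiff_const

theorem supp_der (v : ℂ) {K : ℂ → ℝ} (hs : HasCompactSupport K) :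
    HasCompactSupport (fun y => fderiv ℝ K y v) := hs.fderiv_apply ℝ v

theorem int_conv {K f : ℂ → ℝ} (hK : ContDiff ℝ ∞ K) (hs : HasCompactSupport K)
    (hf : Continuous f) (w : ℂ) : Integrable (fun y : ℂ => K y * f (w - y)) := by
  apply Continuous.integrable_of_hasCompactSupport
  · exact hK.continuous.mul (hf.comp (continuous_const.sub continuous_id))
  · exact hs.mul_right

theorem v3 : S_V3 := by
  intro K hK hs f hf h1 h2
  have hfe : f = fun w => ∫ y : ℂ, K y * f (w - y) := funext fun w => (h1 w).symm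
  have key : ∀ v : ℂ, (fun z => fderiv ℝ f z v) = fun w => ∫ y : ℂ, fderiv ℝ K y v * f (w - y) := by
    intro v
    funext w
    conv_lhs => rw [hfe]
    exact der v hK hs hf w
  have key2 : ∀ v : ℂ, ∀ z : ℂ, fderiv ℝ (fun z => fderiv ℝ f z v) z v =
      ∫ y : ℂ, fderiv ℝ (fun y => fderiv ℝ K y v) y v * f (z - y) := by
    intro v z
    rw [key v]
    exact der v (smooth_der v hK) (supp_der v hs) hf z
  constructor
  · have h := hs.contDiff_convolution_left (μ := (volume : Measure ℂ)) (n := (⊤ : ℕ∞))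
      (ContinuousLinearMap.mul ℝ ℝ) hK (hf.locallyIntegrable (μ := volume))
    rw [hfe]
    exact h
  · intro z
    have e : lap f z = ∫ y : ℂ, lap K y * f (z - y) := by
      have e1 : lap f z = fderiv ℝ (fun z => fderiv ℝ f z 1) z 1 +
        fderiv ℝ (fun z => fderiv ℝ f z Complex.I) z Complex.I := rfl
      rw [e1, key2, key2, ← integral_add
        (int_conv (smooth_der 1 (smooth_der 1 hK)) (supp_der 1 (supp_der 1 hs)) hf z)
        (int_conv (smooth_der _ (smooth_der _ hK)) (supp_der _ (supp_der _ hs)) hf z)]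
      refine integral_congr_ae (Filter.Eventually.of_forall fun y => ?_)
      change _ = lap K y * f (z - y)
      have e2 : lap K y = fderiv ℝ (fun z => fderiv ℝ K z 1) y 1 +
        fderiv ℝ (fun z => fderiv ℝ K z Complex.I) y Complex.I := rfl
      rw [e2, add_mul]
    rw [e, h2 z, neg_add_cancel]

end Pool.Agent.Zk20.SQ
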