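import Pool.Agent.Zk91.SQ.Defs7

/-!
# The rescaled functions are continuous and depend continuously on the point
-/

set_option autoImplicit false
set_option linter.all false

open MeasureTheory Filter Topology

namespace Pool.Agent.Zk20.SQ

open Pool.Agent.N661.BR (resc IsCutoff)
open Pool.Agent.Zk91.SQ

theorem w8 : S_W8 := by
  intro χ hχ Ω hΩ hb lam hlam u hu
  have hχc : ContinuousOn χ (Set.Ici 0) := hχ.smooth.continuousOn
  have hc : Continuous fun z : ℂ => √lam * Metric.infDist z (frontier Ω) :=
    continuous_const.mul (Metric.continuous_infDist_pt _)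
  have hc0 : ∀ z : ℂ, 0 ≤ √lam * Metric.infDist z (frontier Ω) := fun z =>
    mul_nonneg (Real.sqrt_nonneg _) Metric.infDist_nonneg
  have h1 : ∀ z, Continuous fun w => resc χ Ω lam u z w := by
    intro z
    unfold resc
    refine (hu.comp (continuous_const.add (continuous_id.div_const _))).mul ?_
    exact hχc.comp_continuous (continuous_norm.div_const _)
      (fun w => div_nonneg (norm_nonneg _) (hc0 z))
  refine ⟨fun z => ⟨fun w => resc χ Ω lam u z w, h1 z⟩, fun z w => rfl, ?_⟩
  have h2 : Continuous fun p : Ω × ℂ => resc χ Ω lam u p.1 p.2 := by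
    unfold resc
    refine (hu.comp ((continuous_subtype_val.comp continuous_fst).add
      (continuous_snd.div_const _))).mul ?_
    refine hχc.comp_continuous ?_ (fun p => div_nonneg (norm_nonneg _) (hc0 p.1))
    rcases Set.eq_empty_or_nonempty (frontier Ω) with he | hne
    · have : (fun p : Ω × ℂ => ‖p.2‖ / (√lam * Metric.infDist (p.1 : ℂ) (frontier Ω))) =
          fun _ => 0 := by
        funext p
        rw [he, Metric.infDist_empty, mul_zero, div_zero]
      rw [this]
      exact continuous_const
    · refine (continuous_norm.comp continuous_snd).div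
        (hc.comp (continuous_subtype_val.comp continuous_fst)) ?_
      intro p
      have h3 : 0 < Metric.infDist (p.1 : ℂ) (frontier Ω) := by
        refine (isClosed_frontier.notMem_iff_infDist_pos hne).1 ?_
        intro h
        rw [hΩ.frontier_eq] at h
        exact h.2 p.1.2
      exact (mul_pos (Real.sqrt_pos.2 hlam) h3).ne'
  rw [continuousOn_iff_continuous_restrict]
  exact (ContinuousMap.curry ⟨_, h2⟩).continuous

end Pool.Agent.Zk20.SQ
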